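import Pool.Agent.W2helper18.BM.Extremal
import Pool.Agent.W2helper18.BM.Weak
import Pool.Agent.W2helper18.BM.Supp

/-!
# MP_58ffb3_an, Q1: (S) does not imply (W)

We disprove the implication (S) ⟹ (W), for `n = 1`.

The compact set is the unit circle `K`, whose Siciak-Zaharjuta function is
`V_K(z) = log⁺|z|` (a continuous function) with equilibrium measure `μ_K = dθ/2π`.  The measure is
`ν = ∑_j 32^{-2^j} ∑_{ω^{2^j} = 1} δ_ω`, a finite measure whose support is `K`.

* (S) holds.  Let `W ⊆ P_k` be the space of the polynomials vanishing at the `2^i`-th roots of unity.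
  On `W` the measure `ν` acts like a measure that is invariant under the rotations of order `2^i`, so
  the Bergman function of `W` is invariant under these rotations and its measure has vanishing
  moments of the orders `0 < m < 2^i`.  Since `W` has codimension at most `2^i` in `P_k`, the moments
  of `B_k ν` of these orders are bounded by `2^i` for all `k`.
* (W) fails, already pointwise at `z = 2`, because `z^{2^j} - 1` vanishes on the first point masses and
  so has a tiny `L²(ν)` norm.

The definitions (subharmonic functions, `V_K`, `dd^c`, orthonormal bases, Bergman functions, (S) and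
(W)) are in `Pool/Agent/W2helper18/BM/Defs.lean`.
-/

set_option autoImplicit false
open MeasureTheory Metric
open scoped Polynomial

namespace Pool.Agent.Results.MP_58ffb3_an.WeakNotLog

open Pool.Agent.W2helper18.BM

/-- There are a compact set `K ⊂ ℂ` with continuous Siciak-Zaharjuta function `V`, with equilibrium
measure `μ = dd^c V`, and a finite measure `ν` with support `K` whose `L²(ν)` seminorm is a norm on all
polynomials, such that the Bergman functions `B_k` of `ν` satisfy (S) and do not satisfy (W). -/
theorem result : ∃ (K : Set ℂ) (V : ℂ → ℝ) (μ ν : Measure ℂ),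
    -- `K` is compact and its Siciak-Zaharjuta function is the continuous function `V`
    IsCompact K ∧ (∀ z, extremal K z = (V z : EReal)) ∧ Continuous V ∧
    -- `μ` is the equilibrium measure `dd^c V` of `K`
    IsProbabilityMeasure μ ∧ μ Kᶜ = 0 ∧ IsDDc V μ ∧
    -- `ν` is a finite measure with support `K` and non-degenerate on polynomials
    IsFiniteMeasure ν ∧ ν Kᶜ = 0 ∧ (∀ z ∈ K, ∀ r : ℝ, 0 < r → 0 < ν (ball z r)) ∧
    (∀ p : ℂ[X], p ≠ 0 → 0 < ∫ z, ‖p.eval z‖ ^ 2 ∂ν) ∧
    -- the Bergman functions exist, satisfy (S), and do not satisfy (W)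
    (∃ B : ℕ → ℂ → ℝ, ∀ k, IsBergman ν k (B k)) ∧
    ∀ B : ℕ → ℂ → ℝ, (∀ k, IsBergman ν k (B k)) → PropS ν μ B ∧ ¬ PropW V B := by
  refine ⟨sphere (0 : ℂ) 1, fun z => Real.posLog ‖z‖, sigma, nu, isCompact_sphere _ _,
    extremal_sphere, Real.continuous_posLog.comp continuous_norm, inferInstance, ?_, posLog_isDDc,
    inferInstance, ?_, fun z hz r hr => nu_ball_pos hz hr, fun p hp => integral_pos_of_ne_zero hp,
    ?_, fun B hB => ⟨propS hB, not_propW hB⟩⟩
  · have h := sigma_norm
    rw [ae_iff] at h
    convert h using 2
    ext z
    simp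
  · have h := nu_norm
    rw [ae_iff] at h
    convert h using 2
    ext z
    simp
  · choose B hB using exists_bergman
    exact ⟨B, hB⟩

end Pool.Agent.Results.MP_58ffb3_an.WeakNotLog
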